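import Mathlib
import Pool.Agent.Lib.MP_7ba380_an.NormValue

open scoped ContDiff

namespace Pool.Agent.Results.MP_7ba380_an.NormOfMixedDerivative

open Pool.Agent.Lib.MP_7ba380_an

/-- The functions of `B(K₂)` are smooth, and the operator norm of `T = ∂²/∂x₁∂x₂` on `B(K₂)` is `2/π`;
the supremum that defines it is attained. -/
theorem result :
    (∀ f, InB f → ContDiff ℝ ∞ f) ∧ IsGreatest imageValues (2 / Real.pi) :=
  ⟨fun _ hf => hf.contDiff, norm_value⟩

end Pool.Agent.Results.MP_7ba380_an.NormOfMixedDerivative
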