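import Mathlib
import Pool.Agent.Lib.MP_7ba380_an.ExtremalsMain

namespace Pool.Agent.Results.MP_7ba380_an.NormalExtremals

open Pool.Agent.Lib.MP_7ba380_an

/-- Determination of the normal extremals of `T = ∂²/∂x₁∂x₂` on `B(K₂)`: they are exactly the functions
of the unit ball of `B(K₂)` with prescribed signs at the nodes on the two diagonals, equivalently those
whose restrictions to the two diagonals have the explicit form `DiagonalConditions`; off the diagonals
there is room for an infinite-dimensional family. -/
theorem result :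
    (∀ f : Plane → ℂ, IsNormalExtremal f ↔ InB f ∧ (∀ x, ‖f x‖ ≤ 1) ∧ NodeConditions f) ∧
    (∀ f : Plane → ℂ, IsNormalExtremal f ↔ InB f ∧ (∀ x, ‖f x‖ ≤ 1) ∧ DiagonalConditions f) ∧
    IsNormalExtremal basicExtremal ∧
    (∀ K : Plane → ℂ, InB K → (∀ x, ‖K x‖ ≤ weight x) →
      IsNormalExtremal (fun x => basicExtremal x + K x)) ∧
    ¬ FiniteDimensional ℂ (Submodule.span ℂ {f : Plane → ℂ | IsNormalExtremal f}) :=
  extremals_main

end Pool.Agent.Results.MP_7ba380_an.NormalExtremals
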